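import Mathlib
import Pool.Agent.KS6_43.BD.Asy

/-!
# MP_e52733_co: the exact order of the second term of the maximum Boolean dimension

For `f n`, the maximum Boolean dimension of an antichain plus `n` points, the difference
`f n - n / log₂ n` has exact order `n / (log₂ n) ^ 3`.
-/

set_option autoImplicit false

namespace Pool.Agent.Results.MP_e52733_co.SecondOrderTerm

/-- `(L, τ)` is a Boolean realizer, of size `d`, of the poset `(X, P)`: for all distinct `x, y`,
`x < y` in `P` iff `τ (q₁, …, q_d) = 1`, where `qᵢ` tells whether `x < y` in `Lᵢ`. -/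
def IsRealizer {X : Type} (P : PartialOrder X) {d : ℕ} (L : Fin d → LinearOrder X)
    (τ : (Fin d → Bool) → Bool) : Prop :=
  ∀ x y : X, x ≠ y →
    (P.lt x y ↔ τ (fun i => @decide ((L i).lt x y) (Classical.propDecidable _)) = true)

/-- the Boolean dimension of a poset: the least `d ≥ 1` for which there is a Boolean realizer -/
noncomputable def bdim {X : Type} (P : PartialOrder X) : ℕ :=
  sInf {d | 1 ≤ d ∧ ∃ (L : Fin d → LinearOrder X) (τ : (Fin d → Bool) → Bool), IsRealizer P L τ}

/-- the ground set of `P` is an antichain together with `n` points -/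
def AntichainPlus (n : ℕ) {X : Type} (P : PartialOrder X) : Prop :=
  ∃ A : Set X, IsAntichain P.le A ∧ Aᶜ.ncard = n

/-- the set of Boolean dimensions of the finite posets that are an antichain plus `n` points -/
def bdims (n : ℕ) : Set ℕ :=
  {m | ∃ (X : Type) (_ : Finite X) (P : PartialOrder X), AntichainPlus n P ∧ bdim P = m}

/-- The maximum Boolean dimension `f` of an antichain plus `n` points satisfies
`n / log₂ n + c n / (log₂ n) ^ 3 ≤ f ≤ n / log₂ n + C n / (log₂ n) ^ 3` for all large `n`, with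
absolute constants `0 < c` and `C`. -/
theorem result : ∃ (c C : ℝ) (n₀ : ℕ), 0 < c ∧ ∀ n : ℕ, n₀ ≤ n →
    ∃ f : ℕ, IsGreatest (bdims n) f ∧
      (n : ℝ) / Real.logb 2 n + c * (n / (Real.logb 2 n) ^ 3) ≤ f ∧
      (f : ℝ) ≤ n / Real.logb 2 n + C * (n / (Real.logb 2 n) ^ 3) := by
  obtain ⟨n₁, h1⟩ := Pool.Agent.KS6_43.BD.f_upper_second
  obtain ⟨n₂, h2⟩ := Pool.Agent.KS6_43.BD.f_lower_second
  refine ⟨1 / 1000, 800, max n₁ n₂, by norm_num, fun n hn => ?_⟩
  exact ⟨Pool.Agent.TH285.BD.f n, Pool.Agent.TH285.BD.f_isGreatest n,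
    h2 n (le_trans (le_max_right _ _) hn), h1 n (le_trans (le_max_left _ _) hn)⟩

end Pool.Agent.Results.MP_e52733_co.SecondOrderTerm
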